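import Mathlib
import Pool.Agent.W769.Cons.Wrap

set_option autoImplicit false

/-!
# MP_4b405e_nt: progressions whose first term is a gradient field up to a Lipschitz error

Let `U ⊆ ℝ^n` be open and let `B ⊆ ℝ^n` contain, for every `p ∈ U`, the `(n+1)`-term progression with
first term `∇g(p) + b(p)` and common difference `V(p)`, where `g` is differentiable at every point,
`b` and `V` are locally Lipschitz and `V` is locally strongly monotone, for instance `V(p) = p`: then the
first terms are `a r = ∇g(r) + b(r)`, `r ∈ U`.  Then `B` has positive Lebesgue measure, hence full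
dimension.  No modulus of continuity is assumed: `∇g` may be discontinuous, and if it is continuous it may
be nowhere differentiable.
-/

open MeasureTheory Set Metric
open scoped ENNReal

namespace Pool.Agent.Results.MP_4b405e_nt.ConservativeSelections

/-- Euclidean space `ℝ^n`. -/
abbrev E (n : ℕ) : Type := EuclideanSpace ℝ (Fin n)

/-- `U` is nonempty and open, `g` is differentiable at every point of `U`, `b` and `V` are locally
Lipschitz on `U`, and `V` is locally strongly monotone on `U`: near every point of `U`,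
`(V(x) - V(y)) · (x - y) ≥ c |x - y|²` for some `c > 0`. -/
structure Data {n : ℕ} (U : Set (E n)) (g : E n → ℝ) (b V : E n → E n) : Prop where
  isOpen : IsOpen U
  nonempty : U.Nonempty
  differentiable : ∀ p ∈ U, DifferentiableAt ℝ g p
  lipschitz : LocallyLipschitzOn U b
  lipschitzV : LocallyLipschitzOn U V
  monotoneV : ∀ p ∈ U, ∃ c > 0, ∃ r > 0, ∀ x ∈ ball p r, ∀ y ∈ ball p r,
    c * ‖x - y‖ ^ 2 ≤ inner ℝ (V x - V y) (x - y)

/-- For every `δ > 0` at least `c δ^(-m)` sets of diameter at most `δ` are needed to cover `B`. -/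
def CoverBound {n : ℕ} (B : Set (E n)) (c : ℝ) (m : ℕ) : Prop :=
  ∀ δ : ℝ, 0 < δ → ∀ (N : ℕ) (U : Fin N → Set (E n)),
    (∀ i, ∀ x ∈ U i, ∀ y ∈ U i, dist x y ≤ δ) → B ⊆ ⋃ i, U i → c * (δ ^ m)⁻¹ ≤ N

theorem coverBound {n : ℕ} {B : Set (E n)} (h : 0 < volume B) :
    ∃ c : ℝ, 0 < c ∧ CoverBound B c n := by
  set x := volume B with hx
  set v1 := volume (closedBall (0 : E n) 1) with hv1
  have hv1t : v1 ≠ ⊤ := measure_closedBall_lt_top.ne
  have hv1p : v1 ≠ 0 := (measure_closedBall_pos volume 0 one_pos).ne'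
  have hm : (min x 1) ≠ ⊤ := ((min_le_right _ _).trans_lt ENNReal.one_lt_top).ne
  have hmp : (min x 1) ≠ 0 := (lt_min h one_pos).ne'
  refine ⟨(min x 1).toReal / v1.toReal,
    div_pos (ENNReal.toReal_pos hmp hm) (ENNReal.toReal_pos hv1p hv1t), ?_⟩
  intro δ hδ N U hU hB
  have hsmall : ∀ i, volume (U i) ≤ ENNReal.ofReal (δ ^ n) * v1 := by
    intro i
    rcases (U i).eq_empty_or_nonempty with he | ⟨y, hy⟩
    · rw [he]; simp
    · have h1 : U i ⊆ closedBall y δ := fun z hz => mem_closedBall.2 (hU i z hz y hy)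
      refine (measure_mono h1).trans (le_of_eq ?_)
      rw [Measure.addHaar_closedBall' _ _ hδ.le, finrank_euclideanSpace_fin]
  have h2 : x ≤ N * (ENNReal.ofReal (δ ^ n) * v1) := by
    refine (measure_mono hB).trans ((measure_iUnion_le _).trans ?_)
    rw [tsum_fintype]
    refine (Finset.sum_le_card_nsmul _ _ _ fun i _ => hsmall i).trans ?_
    simp
  have h3 : min x 1 ≤ N * (ENNReal.ofReal (δ ^ n) * v1) := (min_le_left _ _).trans h2
  have h4 := ENNReal.toReal_mono (by finiteness) h3
  rw [ENNReal.toReal_mul, ENNReal.toReal_mul, ENNReal.toReal_natCast,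
    ENNReal.toReal_ofReal (by positivity)] at h4
  have h5 : 0 < v1.toReal := ENNReal.toReal_pos hv1p hv1t
  have h6 : 0 < δ ^ n := by positivity
  rw [← div_eq_mul_inv, div_div, div_le_iff₀ (by positivity)]
  linarith

theorem result :
    (∀ (n : ℕ) (U : Set (E n)) (g : E n → ℝ) (b V : E n → E n), Data U g b V →
      -- at most `n` of the layers are null sets
      {t : ℝ | volume ((fun p => gradient g p + b p + t • V p) '' U) = 0}.encard ≤ n ∧
      -- `n + 1` terms give positive measure
      ∀ (B : Set (E n)) (t : Fin (n + 1) → ℝ), Function.Injective t →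
        (∀ p ∈ U, ∀ i, gradient g p + b p + t i • V p ∈ B) →
        0 < volume B ∧ dimH B = (n : ℝ≥0∞) ∧ ∃ c : ℝ, 0 < c ∧ CoverBound B c n) ∧
    -- progressions: common differences `r ∈ U` and first terms `∇g(r) + b(r)`
    (∀ (n : ℕ) (U : Set (E n)) (g : E n → ℝ) (b : E n → E n), IsOpen U → U.Nonempty →
      (∀ r ∈ U, DifferentiableAt ℝ g r) → LocallyLipschitzOn U b →
      ∀ B : Set (E n), (∀ r ∈ U, ∀ j : ℕ, j < n + 1 → (gradient g r + b r) + (j : ℝ) • r ∈ B) →
        0 < volume B ∧ dimH B = (n : ℝ≥0∞) ∧ ∃ c : ℝ, 0 < c ∧ CoverBound B c n) := by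
  have main : ∀ (n : ℕ) (U : Set (E n)) (g : E n → ℝ) (b V : E n → E n), Data U g b V →
      {t : ℝ | volume ((fun p => gradient g p + b p + t • V p) '' U) = 0}.encard ≤ n ∧
      ∀ (B : Set (E n)) (t : Fin (n + 1) → ℝ), Function.Injective t →
        (∀ p ∈ U, ∀ i, gradient g p + b p + t i • V p ∈ B) →
        0 < volume B ∧ dimH B = (n : ℝ≥0∞) ∧ ∃ c : ℝ, 0 < c ∧ CoverBound B c n := by
    intro n U g b V D
    have hs := Pool.Agent.W769.Cons.slices D.isOpen D.nonempty D.differentiable D.lipschitz
      D.lipschitzV D.monotoneV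
    refine ⟨hs, fun B t ht hB => ?_⟩
    have hpos : 0 < volume B := by
      rw [pos_iff_ne_zero]
      intro h0
      have h1 : range t ⊆ {t : ℝ | volume ((fun p => gradient g p + b p + t • V p) '' U) = 0} := by
        rintro _ ⟨i, rfl⟩
        refine measure_mono_null ?_ h0
        rintro _ ⟨p, hp, rfl⟩
        exact hB p hp i
      have h2 := ht.encard_range.trans ((encard_le_encard h1).trans hs)
      simp only [ENat.card_eq_coe_fintype_card, Fintype.card_fin] at h2
      have h3 : n + 1 ≤ n := by exact_mod_cast h2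
      omega
    exact ⟨hpos, (Pool.Agent.W769.Cons.full_of_pos hpos).2.1, coverBound hpos⟩
  refine ⟨main, fun n U g b hU hne hg hb B hB => ?_⟩
  refine (main n U g b (fun p => p) ⟨hU, hne, hg, hb,
    Pool.Agent.W769.Cons.locallyLipschitzOn_id U,
    Pool.Agent.W769.Cons.locStrMono_id U⟩).2 B (fun i => ((i : ℕ) : ℝ)) ?_ ?_
  · intro i j hij
    exact Fin.ext (Nat.cast_injective hij)
  · intro p hp i
    exact hB p hp i i.2

end Pool.Agent.Results.MP_4b405e_nt.ConservativeSelections
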