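import Pool.Agent.Q247.RK.Uncond

set_option autoImplicit false

/-!
# MP_4b405e_nt: random sets of common differences

Scale `1/N`: the common differences are the `N^n` points `v/N`, `v ∈ {0, …, N-1}^n`, of `[0,1]^n`.

There is ONE length `k` such that for every `n` and every `η` there is `c > 0` with the following property.
For all `m ≤ N^(0.5989 n)`, all but a proportion `N^(-η n)` of the `m`-element sets `D` of differences are such
that EVERY set `B ⊆ ℝ^n` which contains a `k`-term progression with common difference `v/N` for each `v` of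
some `J ⊆ D` has covering number at least `c |J|` at scale `1/N`.  So for a random set of at most
`N^(0.5989 n)` differences the estimate conjectured in the problem (there with a loss `N^ε`, with `k`
depending on `ε`, for all `N^n` differences) holds with no loss at all, with a fixed `k`, simultaneously for
all subsets `J` of the random set and all choices of the progressions.

In particular (second part) for `n ≥ 1` such sets of `m` differences exist for all `N` and all
`m ≤ N^(0.5989 n)`.
-/

open Finset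

namespace Pool.Agent.Results.MP_4b405e_nt.RandomDifferenceSets

open Pool.Agent.Q247.RK

/-- The index set `{0, …, N-1}^n`. -/
abbrev Ix (n N : ℕ) : Type := Fin n → Fin N

/-- The common difference `v/N`. -/
noncomputable def diff {n N : ℕ} (v : Ix n N) : Fin n → ℝ := fun i => ((v i : ℕ) : ℝ) / N

/-- At least `C` sets of diameter at most `δ` are needed to cover `B`. -/
def CoverNumberGE {n : ℕ} (δ C : ℝ) (B : Set (Fin n → ℝ)) : Prop :=
  ∀ (M : ℕ) (U : Fin M → Set (Fin n → ℝ)), (∀ i, ∀ x ∈ U i, ∀ y ∈ U i, dist x y ≤ δ) →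
    B ⊆ ⋃ i, U i → C ≤ M

/-- `D` is a set of differences such that for each `J ⊆ D` every set `B` that contains a `k`-term
progression with common difference `v/N` for each `v ∈ J` has covering number at least `c |J|` at
scale `1/N`. -/
def LargeCovers {n N : ℕ} (k : ℕ) (c : ℝ) (D : Finset (Ix n N)) : Prop :=
  ∀ J ⊆ D, ∀ B : Set (Fin n → ℝ),
    (∀ v ∈ J, ∃ a : Fin n → ℝ, ∀ i < k, a + (i : ℝ) • diff v ∈ B) →
      CoverNumberGE (1 / N) (c * J.card) B

/-- The point of `ℤ^n` below `N x`. -/
noncomputable def fl {n : ℕ} (N : ℕ) (x : Fin n → ℝ) : Fin n → ℤ := fun i => ⌊(N : ℝ) * x i⌋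

theorem fl_card {n N : ℕ} (hN : 0 < N) {U : Set (Fin n → ℝ)}
    (hU : ∀ x ∈ U, ∀ y ∈ U, dist x y ≤ 1 / (N : ℝ)) (S : Finset (Fin n → ℤ))
    (hS : ∀ z ∈ S, ∃ x ∈ U, fl N x = z) : S.card ≤ 2 ^ n := by
  classical
  have hN0 : (0 : ℝ) < N := by exact_mod_cast hN
  rcases S.eq_empty_or_nonempty with rfl | hne
  · simp
  have hcoord : ∀ i, (S.image fun z => z i).Nonempty := fun i => hne.image _
  have hsub : S ⊆ Fintype.piFinset fun i => Finset.Icc ((S.image fun z => z i).min' (hcoord i))
      ((S.image fun z => z i).min' (hcoord i) + 1) := by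
    intro z hz
    rw [Fintype.mem_piFinset]
    intro i
    rw [Finset.mem_Icc]
    refine ⟨Finset.min'_le _ _ (mem_image_of_mem _ hz), ?_⟩
    obtain ⟨z', hz', he⟩ := mem_image.1 ((S.image fun z => z i).min'_mem (hcoord i))
    rw [← he]
    obtain ⟨x, hx, rfl⟩ := hS z hz
    obtain ⟨y, hy, rfl⟩ := hS z' hz'
    have h1 := (dist_le_pi_dist x y i).trans (hU x hx y hy)
    rw [Real.dist_eq] at h1
    have h2 : (N : ℝ) * x i ≤ (N : ℝ) * y i + 1 := by
      have h3 : x i - y i ≤ 1 / N := (le_abs_self _).trans h1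
      have h4 : (N : ℝ) * (x i - y i) ≤ (N : ℝ) * (1 / N) := by gcongr
      rw [mul_one_div_cancel hN0.ne'] at h4
      linarith
    unfold fl
    rw [← Int.floor_add_one]
    exact Int.floor_le_floor h2
  refine (card_le_card hsub).trans ?_
  rw [Fintype.card_piFinset]
  refine (Finset.prod_le_prod' (fun i _ => ?_) : _ ≤ ∏ _i : Fin n, 2).trans (by simp)
  rw [Int.card_Icc]
  omega

/-- The integer with digits `z i` (integers of any size and sign) in base `N`. -/
def dig {n : ℕ} (N : ℕ) (z : Fin n → ℤ) : ℤ := ∑ i, z i * (N : ℤ) ^ (i : ℕ)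

theorem dig_inj {n N : ℕ} {v w : Ix n N}
    (h : dig N (fun i => ((v i : ℕ) : ℤ)) = dig N (fun i => ((w i : ℕ) : ℤ))) : v = w := by
  apply finFunctionFinEquiv.injective
  apply Fin.ext
  rw [finFunctionFinEquiv_apply, finFunctionFinEquiv_apply]
  unfold dig at h
  simp only at h
  exact_mod_cast h

theorem dig_add_smul {n : ℕ} (N : ℕ) (z w : Fin n → ℤ) (t : ℤ) :
    dig N (fun i => z i + t * w i) = dig N z + t * dig N w := by
  unfold dig
  rw [Finset.mul_sum, ← Finset.sum_add_distrib]
  refine Finset.sum_congr rfl fun i _ => ?_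
  ring

theorem fl_shift {n N : ℕ} (hN : 0 < N) (a : Fin n → ℝ) (v : Ix n N) (j : ℕ) :
    fl N (a + (j : ℝ) • diff v) = fun i => fl N a i + (j : ℤ) * ((v i : ℕ) : ℤ) := by
  have hN0 : (0 : ℝ) < N := by exact_mod_cast hN
  funext i
  simp only [fl, diff, Pi.add_apply, Pi.smul_apply, smul_eq_mul]
  rw [← Int.floor_add_intCast]
  congr 1
  push_cast
  field_simp

/-- A set of differences whose images in base `N` (times `q`) satisfy the estimate for sums and
differences is good. -/
theorem good {S : Finset ℚ} {q : ℕ} (hq : 1 ≤ q) {P : ℚ → ℤ} (hP : ∀ r ∈ S, (1 + r) * (P r : ℚ) = q)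
    {n N : ℕ} (hN : 0 < N) {C : ℕ} (hC : 1 ≤ C) (D : Finset (Ix n N))
    (h : ∀ A : Finset (ℤ × ℤ),
      (∀ p ∈ A, p.1 - p.2 ∈ D.image fun v => (q : ℤ) * dig N (fun i => ((v i : ℕ) : ℤ))) →
      (proj (-1) A).card ≤ C * big S A) :
    LargeCovers (2 * (∑ r ∈ S, (P r).natAbs) + 1) (1 / (C * 2 ^ n)) D := by
  classical
  intro J hJ B hB M U hU hBU
  set J0 : ℕ := ∑ r ∈ S, (P r).natAbs with hJ0
  choose! a ha using hB
  -- the integer points
  set e : Ix n N → ℤ := fun v => dig N (fun i => ((v i : ℕ) : ℤ)) with he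
  set y : Ix n N → ℤ := fun v => dig N (fl N (a v)) + J0 * e v with hy
  set A : Finset (ℤ × ℤ) := J.image fun v => (y v + q * e v, y v) with hA
  have hterm : ∀ (t : ℕ), t ≤ 2 * J0 →
      ((J.image fun v => dig N (fl N (a v)) + (t : ℤ) * e v).card) ≤ M * 2 ^ n := by
    intro t ht
    set G : Ix n N → (Fin n → ℤ) := fun v => fl N (a v + (t : ℝ) • diff v) with hG
    have h3 : (J.image fun v => dig N (fl N (a v)) + (t : ℤ) * e v) = (J.image G).image (dig N) := by
      rw [image_image]
      refine image_congr fun v _ => ?_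
      simp only [Function.comp, hG]
      rw [fl_shift hN, dig_add_smul]
    rw [h3]
    refine card_image_le.trans ?_
    have h5 : (J.image G).card ≤ ∑ i : Fin M, ((J.image G).filter fun z =>
        ∃ x ∈ U i, fl N x = z).card := by
      refine le_trans (card_le_card ?_) card_biUnion_le
      intro z hz
      obtain ⟨v, hv, rfl⟩ := mem_image.1 hz
      obtain ⟨i, hi⟩ := Set.mem_iUnion.1 (hBU (ha v hv t (by omega)))
      rw [mem_biUnion]
      exact ⟨i, mem_univ _, mem_filter.2 ⟨hz, _, hi, rfl⟩⟩
    refine h5.trans ?_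
    refine (sum_le_sum fun i _ => fl_card hN (hU i) _ fun z hz => (mem_filter.1 hz).2).trans ?_
    simp
  have hbig : big S A ≤ M * 2 ^ n := by
    unfold big
    refine max_le ?_ (Finset.sup_le fun r hr => ?_)
    · have : projInf A = (J.image fun v => dig N (fl N (a v)) + ((J0 : ℕ) : ℤ) * e v).image
          (fun z : ℤ => (z : ℚ)) := by
        unfold projInf
        rw [hA, image_image, image_image]
        rfl
      rw [this]
      exact card_image_le.trans (hterm J0 (by omega))
    · have hb : (P r).natAbs ≤ J0 := by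
        rw [hJ0]
        exact Finset.single_le_sum (f := fun r => (P r).natAbs) (fun _ _ => Nat.zero_le _) hr
      obtain ⟨t, ht⟩ : ∃ t : ℕ, (t : ℤ) = J0 + P r := ⟨((J0 : ℤ) + P r).toNat, by
        rw [Int.toNat_of_nonneg]; omega⟩
      have ht2 : t ≤ 2 * J0 := by omega
      have : proj r A = (J.image fun v => dig N (fl N (a v)) + (t : ℤ) * e v).image
          (fun z : ℤ => (1 + r) * (z : ℚ)) := by
        unfold proj
        rw [hA, image_image, image_image]
        refine image_congr fun v _ => ?_
        simp only [Function.comp, hy]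
        have h1 := hP r hr
        have h2 : (t : ℚ) = J0 + P r := by exact_mod_cast ht
        push_cast
        rw [h2, ← h1]
        ring
      rw [this]
      exact card_image_le.trans (hterm t ht2)
  have hproj : (proj (-1) A).card = J.card := by
    have h1 : proj (-1) A = J.image fun v => (q : ℚ) * (e v : ℚ) := by
      unfold proj
      rw [hA, image_image]
      refine image_congr fun v _ => ?_
      simp only [Function.comp]
      push_cast
      ring
    rw [h1, card_image_of_injective]
    intro v w hvw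
    have hq0 : (q : ℚ) ≠ 0 := by
      have : q ≠ 0 := by omega
      exact_mod_cast this
    have h2 := mul_left_cancel₀ hq0 hvw
    exact dig_inj (by exact_mod_cast h2)
  have hfin := h A (by
    intro p hp
    obtain ⟨v, hv, rfl⟩ := mem_image.1 hp
    refine mem_image.2 ⟨v, hJ hv, ?_⟩
    simp only [he]
    ring)
  rw [hproj] at hfin
  have h7 : J.card ≤ C * (M * 2 ^ n) := hfin.trans (Nat.mul_le_mul_left _ hbig)
  have h8 : (J.card : ℝ) ≤ C * (M * 2 ^ n) := by exact_mod_cast h7
  have hC0 : (0 : ℝ) < C := by exact_mod_cast (by omega : 0 < C)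
  rw [one_div, inv_mul_le_iff₀ (by positivity)]
  linarith

theorem result : ∃ k : ℕ,
    (∀ (n : ℕ) (η : ℝ), ∃ c : ℝ, 0 < c ∧ ∀ N m : ℕ, 1 ≤ N → (m : ℝ) ≤ ((N : ℝ) ^ n) ^ (0.5989 : ℝ) →
      (Nat.card {D : Finset (Ix n N) // D.card = m ∧ ¬ LargeCovers k c D} : ℝ) ≤
        ((N : ℝ) ^ n) ^ (-η) * ((N ^ n).choose m)) ∧
    ∀ n : ℕ, 1 ≤ n → ∃ c : ℝ, 0 < c ∧ ∀ N m : ℕ, 1 ≤ N → (m : ℝ) ≤ ((N : ℝ) ^ n) ^ (0.5989 : ℝ) →
      ∃ D : Finset (Ix n N), D.card = m ∧ LargeCovers k c D := by
  classical
  obtain ⟨S, hS, hun⟩ := uncond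
  obtain ⟨q, P, hq, hP⟩ := exists_q S hS
  have main : ∀ (n : ℕ) (η : ℝ), ∃ c : ℝ, (0 < c ∧ c ≤ 1) ∧ ∀ N m : ℕ, 1 ≤ N →
      (m : ℝ) ≤ ((N : ℝ) ^ n) ^ (0.5989 : ℝ) →
      (Nat.card {D : Finset (Ix n N) // D.card = m ∧
        ¬ LargeCovers (2 * (∑ r ∈ S, (P r).natAbs) + 1) c D} : ℝ) ≤
        ((N : ℝ) ^ n) ^ (-η) * ((N ^ n).choose m) := by
    intro n η
    obtain ⟨C, hC, hb⟩ := hun η
    have hC1 : (1 : ℝ) ≤ C := by exact_mod_cast hC
    refine ⟨1 / (C * 2 ^ n), ⟨by positivity, ?_⟩, fun N m hN hm => ?_⟩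
    · rw [div_le_one (by positivity)]
      have : (1 : ℝ) ≤ 2 ^ n := one_le_pow₀ (by norm_num)
      nlinarith
    · set g : Ix n N → ℤ := fun v => (q : ℤ) * dig N (fun i => ((v i : ℕ) : ℤ)) with hg
      have hginj : Function.Injective g := by
        intro v w hvw
        have hq0 : (q : ℤ) ≠ 0 := by
          have : q ≠ 0 := by omega
          exact_mod_cast this
        exact dig_inj (mul_left_cancel₀ hq0 hvw)
      have hcardB : (univ.image g).card = N ^ n := by
        rw [card_image_of_injective _ hginj]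
        simp
      have h1 := hb (univ.image g) m (by rw [hcardB]; push_cast; exact hm)
      rw [hcardB] at h1
      push_cast at h1
      refine le_trans ?_ h1
      have h2 : Nat.card {D : Finset (Ix n N) // D.card = m ∧
          ¬ LargeCovers (2 * (∑ r ∈ S, (P r).natAbs) + 1) (1 / (C * 2 ^ n)) D} ≤
          Nat.card {D' // D' ∈ Bad S (univ.image g) m C} := by
        have key : ∀ D : Finset (Ix n N), (D.card = m ∧
            ¬ LargeCovers (2 * (∑ r ∈ S, (P r).natAbs) + 1) (1 / (C * 2 ^ n)) D) →
            D.image g ∈ Bad S (univ.image g) m C := by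
          intro D hD
          rw [mem_Bad]
          refine ⟨⟨image_subset_image (subset_univ _), ?_⟩, fun hcon => hD.2 ?_⟩
          · rw [card_image_of_injective _ hginj]
            exact hD.1
          · exact good hq hP (by omega) hC D hcon
        refine Nat.card_le_card_of_injective (Subtype.map (fun D => D.image g) key) ?_
        exact Subtype.map_injective _ (Finset.image_injective hginj)
      have h3 : Nat.card {D' // D' ∈ Bad S (univ.image g) m C} = (Bad S (univ.image g) m C).card :=
        Nat.card_eq_card_toFinset _ |>.trans (by simp)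
      rw [h3] at h2
      exact_mod_cast h2
  refine ⟨2 * (∑ r ∈ S, (P r).natAbs) + 1, fun n η => ?_, fun n hn => ?_⟩
  · obtain ⟨c, hc, h⟩ := main n η
    exact ⟨c, hc.1, h⟩
  · obtain ⟨c, hc, h⟩ := main n 1
    refine ⟨c, hc.1, fun N m hN hm => ?_⟩
    have hN0 : (0 : ℝ) < N := by exact_mod_cast (by omega : 0 < N)
    rcases Nat.lt_or_ge 1 N with hN1 | hN1
    · by_contra hcon
      push Not at hcon
      have h1 := h N m hN hm
      have hle : m ≤ N ^ n := by
        have hNn : (1 : ℝ) ≤ (N : ℝ) ^ n := one_le_pow₀ (by exact_mod_cast hN)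
        have h2 : (m : ℝ) ≤ (N : ℝ) ^ n := by
          refine hm.trans ?_
          calc ((N : ℝ) ^ n) ^ (0.5989 : ℝ) ≤ ((N : ℝ) ^ n) ^ (1 : ℝ) :=
                Real.rpow_le_rpow_of_exponent_le hNn (by norm_num)
            _ = _ := Real.rpow_one _
        exact_mod_cast h2
      have h3 : Nat.card {D : Finset (Ix n N) // D.card = m ∧
          ¬ LargeCovers (2 * (∑ r ∈ S, (P r).natAbs) + 1) c D} = (N ^ n).choose m := by
        have h4 : ∀ D : Finset (Ix n N), (D.card = m ∧
            ¬ LargeCovers (2 * (∑ r ∈ S, (P r).natAbs) + 1) c D) ↔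
            D ∈ (univ : Finset (Ix n N)).powersetCard m := by
          intro D
          rw [mem_powersetCard]
          exact ⟨fun hD => ⟨subset_univ _, hD.1⟩, fun hD => ⟨hD.2, hcon D hD.2⟩⟩
        rw [Nat.card_congr (Equiv.subtypeEquivRight h4), Nat.card_eq_fintype_card,
          Fintype.card_coe, card_powersetCard]
        simp
      rw [h3] at h1
      have h5 : (0 : ℝ) < ((N ^ n).choose m : ℕ) := by exact_mod_cast Nat.choose_pos hle
      have h6 : ((N : ℝ) ^ n) ^ (-(1 : ℝ)) < 1 := by
        apply Real.rpow_lt_one_of_one_lt_of_neg _ (by norm_num)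
        exact one_lt_pow₀ (by exact_mod_cast hN1) (by omega)
      nlinarith
    · have hN2 : N = 1 := by omega
      subst hN2
      have hm1 : m ≤ 1 := by
        have : (m : ℝ) ≤ 1 := by simpa using hm
        exact_mod_cast this
      refine ⟨(Finset.univ : Finset (Ix n 1)).filter fun _ => 1 ≤ m, ?_, ?_⟩
      · rcases Nat.lt_or_ge m 1 with h0 | h0
        · have : m = 0 := by omega
          subst this
          simp
        · have : m = 1 := by omega
          subst this
          simp
      · intro J hJ B hB M U hU hBU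
        rcases J.eq_empty_or_nonempty with rfl | ⟨v, hv⟩
        · simp
        · obtain ⟨a, ha⟩ := hB v hv
          obtain ⟨i, -⟩ := Set.mem_iUnion.1 (hBU (ha 0 (by omega)))
          have hM : 1 ≤ M := by
            have := i.2
            omega
          have hJ1 : J.card ≤ 1 := by
            refine (card_le_univ J).trans ?_
            simp
          have h1 : (J.card : ℝ) ≤ 1 := by exact_mod_cast hJ1
          have h2 : (1 : ℝ) ≤ M := by exact_mod_cast hM
          nlinarith [hc.1, hc.2, Nat.cast_nonneg (α := ℝ) J.card]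

end Pool.Agent.Results.MP_4b405e_nt.RandomDifferenceSets
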