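import Pool.Agent.Q184.PM.Rate

set_option autoImplicit false

/-!
# MP_4b405e_nt: progressions whose first terms are matched with the differences at random

Scale `1/N`: the differences are the `N^n` points `v/N`, `v ∈ {0, …, N-1}^n`, and `p_w`,
`w ∈ {0, …, N-1}^n`, are `N^n` ARBITRARY points of `ℝ^n` (repetitions are allowed).  A permutation `σ` of
the index set prescribes the first term `p_{σ v}` of the progression with common difference `v/N`.

For all but a proportion `e^(-K N^n)` of the `(N^n)!` permutations the following holds: every set `B` which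
contains, for the `v` of some set `J` of at least `γ N^n` indices, the term `p_{σ v} + j v/N` of the
progression (a single `j ≥ 1`, for example the second term of a two-term progression) has covering number
at least `c N^n` at scale `1/N`.  Here `c = c(n, γ, K) > 0`; the exceptional permutations are rarer than
any exponential rate given in advance, and `B`, `J` and `j` are arbitrary.
-/

open Finset

namespace Pool.Agent.Results.MP_4b405e_nt.RandomMatchings

/-- The index set `{0, …, N-1}^n`. -/
abbrev Ix (n N : ℕ) : Type := Fin n → Fin N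

/-- The common difference `v/N`. -/
noncomputable def diff {n N : ℕ} (v : Ix n N) : Fin n → ℝ := fun i => ((v i : ℕ) : ℝ) / N

/-- At least `C` sets of diameter at most `δ` are needed to cover `B`. -/
def CoverNumberGE {n : ℕ} (δ C : ℝ) (B : Set (Fin n → ℝ)) : Prop :=
  ∀ (M : ℕ) (U : Fin M → Set (Fin n → ℝ)), (∀ i, ∀ x ∈ U i, ∀ y ∈ U i, dist x y ≤ δ) →
    B ⊆ ⋃ i, U i → C ≤ M

/-- Every set that contains the `j`-th terms of the progressions with first term `a v` and common
difference `v/N`, for at least `γ N^n` indices `v` and one `j ≥ 1`, has covering number at least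
`c N^n` at scale `1/N`. -/
def LargeCovers {n N : ℕ} (γ c : ℝ) (a : Ix n N → Fin n → ℝ) : Prop :=
  ∀ (J : Finset (Ix n N)) (j : ℕ) (B : Set (Fin n → ℝ)), 1 ≤ j → γ * (N : ℝ) ^ n ≤ J.card →
    (∀ v ∈ J, a v + (j : ℝ) • diff v ∈ B) → CoverNumberGE (1 / N) (c * (N : ℝ) ^ n) B

/-- The point of `ℤ^n` below `N x`. -/
noncomputable def fl {n : ℕ} (N : ℕ) (x : Fin n → ℝ) : Fin n → ℤ := fun i => ⌊(N : ℝ) * x i⌋

theorem fl_card {n N : ℕ} (hN : 0 < N) {U : Set (Fin n → ℝ)}
    (hU : ∀ x ∈ U, ∀ y ∈ U, dist x y ≤ 1 / (N : ℝ)) (S : Finset (Fin n → ℤ))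
    (hS : ∀ z ∈ S, ∃ x ∈ U, fl N x = z) : S.card ≤ 2 ^ n := by
  classical
  have hN0 : (0 : ℝ) < N := by exact_mod_cast hN
  rcases S.eq_empty_or_nonempty with rfl | hne
  · simp
  have hcoord : ∀ i, (S.image fun z => z i).Nonempty := fun i => hne.image _
  have hsub : S ⊆ Fintype.piFinset fun i => Finset.Icc ((S.image fun z => z i).min' (hcoord i))
      ((S.image fun z => z i).min' (hcoord i) + 1) := by
    intro z hz
    rw [Fintype.mem_piFinset]
    intro i
    rw [Finset.mem_Icc]
    refine ⟨Finset.min'_le _ _ (mem_image_of_mem _ hz), ?_⟩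
    obtain ⟨z', hz', he⟩ := mem_image.1 ((S.image fun z => z i).min'_mem (hcoord i))
    rw [← he]
    obtain ⟨x, hx, rfl⟩ := hS z hz
    obtain ⟨y, hy, rfl⟩ := hS z' hz'
    have h1 := (dist_le_pi_dist x y i).trans (hU x hx y hy)
    rw [Real.dist_eq] at h1
    have h2 : (N : ℝ) * x i ≤ (N : ℝ) * y i + 1 := by
      have h3 : x i - y i ≤ 1 / N := (le_abs_self _).trans h1
      have h4 : (N : ℝ) * (x i - y i) ≤ (N : ℝ) * (1 / N) := by gcongr
      rw [mul_one_div_cancel hN0.ne'] at h4
      linarith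
    unfold fl
    rw [← Int.floor_add_one]
    exact Int.floor_le_floor h2
  refine (card_le_card hsub).trans ?_
  rw [Fintype.card_piFinset]
  refine (Finset.prod_le_prod' (fun i _ => ?_) : _ ≤ ∏ _i : Fin n, 2).trans (by simp)
  rw [Int.card_Icc]
  omega

theorem result (n : ℕ) (γ K : ℝ) (hγ : 0 < γ) (hK : 0 ≤ K) : ∃ c : ℝ, 0 < c ∧
    ∀ (N : ℕ), 1 ≤ N → ∀ p : Ix n N → Fin n → ℝ,
      (Nat.card {σ : Equiv.Perm (Ix n N) // ¬ LargeCovers γ c fun v => p (σ v)} : ℝ) ≤
        Real.exp (-(K * (N : ℝ) ^ n)) * Nat.factorial (N ^ n) := by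
  classical
  obtain ⟨c, hc, h⟩ := Pool.Agent.Q184.PM.rand hγ K hK
  refine ⟨c / 2 ^ n, by positivity, fun N hN p => ?_⟩
  have hN0 : (0 : ℝ) < N := by exact_mod_cast hN
  have hd : Function.Injective (fun v : Ix n N => (fun i => ((v i : ℕ) : ℚ))) := by
    intro v w hvw
    funext i
    have := congrFun hvw i
    exact Fin.ext (Nat.cast_injective this)
  have h1 := h (Ix n N) ℚ (Fin n → ℚ) (fun w => fun i => ((fl N (p w) i : ℤ) : ℚ)) _ hd
  rw [Nat.card_eq_fintype_card (α := Equiv.Perm (Ix n N)), Fintype.card_perm] at h1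
  have hcI : Fintype.card (Ix n N) = N ^ n := by simp
  rw [hcI] at h1
  push_cast at h1
  refine le_trans ?_ h1
  have key : ∀ σ : Equiv.Perm (Ix n N), (¬ LargeCovers γ (c / 2 ^ n) fun v => p (σ v)) →
      ¬ ∀ (t : ℚ) (J : Finset (Ix n N)), t ≠ 0 → γ * (N : ℝ) ^ n ≤ J.card →
        c * (N : ℝ) ^ n ≤ (J.image fun v => (fun i => ((fl N (p (σ v)) i : ℤ) : ℚ)) +
          t • (fun i => ((v i : ℕ) : ℚ))).card := by
    intro σ hσ hcon
    refine hσ fun J j B hj hJ hB M U hU hBU => ?_
    have h2 := hcon (j : ℚ) J (by positivity) hJ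
    -- the image as integer points
    set G : Ix n N → (Fin n → ℤ) := fun v => fl N (p (σ v) + (j : ℝ) • diff v) with hG
    have hG2 : ∀ v, G v = fl N (p (σ v)) + fun i => ((j * (v i : ℕ) : ℕ) : ℤ) := by
      intro v
      funext i
      simp only [hG, fl, diff, Pi.add_apply, Pi.smul_apply, smul_eq_mul]
      rw [← Int.floor_add_intCast]
      congr 1
      push_cast
      field_simp
    have h3 : (J.image fun v => (fun i => ((fl N (p (σ v)) i : ℤ) : ℚ)) +
          (j : ℚ) • (fun i => ((v i : ℕ) : ℚ))) =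
        (J.image G).image fun z => fun i => ((z i : ℤ) : ℚ) := by
      rw [image_image]
      refine image_congr fun v _ => ?_
      funext i
      simp only [Function.comp, hG2, Pi.add_apply, Pi.smul_apply, smul_eq_mul]
      push_cast
      ring
    have h4 : c * (N : ℝ) ^ n ≤ (J.image G).card := by
      rw [h3] at h2
      refine h2.trans ?_
      exact_mod_cast card_image_le
    have h5 : (J.image G).card ≤ ∑ i : Fin M, ((J.image G).filter fun z =>
        ∃ x ∈ U i, fl N x = z).card := by
      refine le_trans (card_le_card ?_) card_biUnion_le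
      intro z hz
      obtain ⟨v, hv, rfl⟩ := mem_image.1 hz
      obtain ⟨i, hi⟩ := Set.mem_iUnion.1 (hBU (hB v hv))
      rw [mem_biUnion]
      exact ⟨i, mem_univ _, mem_filter.2 ⟨hz, _, hi, rfl⟩⟩
    have h6 : (J.image G).card ≤ M * 2 ^ n := by
      refine h5.trans ?_
      refine (sum_le_sum fun i _ => fl_card hN (hU i) _ fun z hz => (mem_filter.1 hz).2).trans ?_
      simp
    have h7 : c * (N : ℝ) ^ n ≤ M * 2 ^ n := by
      refine h4.trans ?_
      exact_mod_cast h6
    rw [div_mul_eq_mul_div, div_le_iff₀ (by positivity)]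
    exact h7
  have hinj : Nat.card {σ : Equiv.Perm (Ix n N) // ¬ LargeCovers γ (c / 2 ^ n) fun v => p (σ v)} ≤
      Nat.card {σ : Equiv.Perm (Ix n N) // ¬ ∀ (t : ℚ) (J : Finset (Ix n N)), t ≠ 0 →
        γ * (N : ℝ) ^ n ≤ J.card →
        c * (N : ℝ) ^ n ≤ (J.image fun v => (fun i => ((fl N (p (σ v)) i : ℤ) : ℚ)) +
          t • (fun i => ((v i : ℕ) : ℚ))).card} :=
    Nat.card_le_card_of_injective (Subtype.map id key) (Subtype.map_injective _
      Function.injective_id)
  exact_mod_cast hinj

end Pool.Agent.Results.MP_4b405e_nt.RandomMatchings
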