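import Mathlib
import Pool.Agent.Q184.AKS.Main

set_option autoImplicit false

/-!
# MP_4b405e_nt: progressions whose first term is a Sobolev or Hölder function of the difference

Let `B ⊆ ℝ^n` contain the progressions `a r, a r + r, …, a r + (k-1) r` for all common differences `r`
in a cube.

1. If `a` is continuous and of the critical Sobolev class `W^{1-1/n, n}` on the cube, then `k = n + 1`
   terms force `B` to have positive Lebesgue measure: at most `n` of the layers `{a r + t r}`, `t ∈ ℝ`,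
   are null sets.
2. If `a` is `α`-Hölder with `α > 1 - 1/m`, `m ≤ n`, then `m + 1` terms force dimension at least `m`.
3. If `1 - 1/n < α ≤ 1` and `H` is the Hölder constant on a cube of half side `ρ`, then `B` has volume
   at least `c ρ^n (1 + H ρ^(α-1)) ^ (-n(n-1)/(αn-n+1))`.
4. `n + 1` is the right number of terms: `n` terms are not enough, even for linear functions `a`.
-/

open MeasureTheory Set Metric
open scoped ENNReal NNReal

namespace Pool.Agent.Results.MP_4b405e_nt.SobolevSelections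

/-- The double integral of `|a v - a w|^n / |v - w|^(2n-1)` over the square of the closed cube with
centre `v₀` and half side `ρ`; it is finite iff `a` is of class `W^{1-1/n, n}` there. -/
noncomputable def energy {n : ℕ} (a : (Fin n → ℝ) → Fin n → ℝ) (v₀ : Fin n → ℝ) (ρ : ℝ) : ℝ≥0∞ :=
  ∫⁻ v in closedBall v₀ ρ, ∫⁻ w in closedBall v₀ ρ, ‖a v - a w‖ₑ ^ n / ‖v - w‖ₑ ^ (2 * n - 1)

/-- `B` contains the `k`-term progression with first term `a r` and common difference `r`, for all `r` in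
the closed cube with centre `v₀` and half side `ρ`. -/
def Contains {n : ℕ} (k : ℕ) (a : (Fin n → ℝ) → Fin n → ℝ) (v₀ : Fin n → ℝ) (ρ : ℝ)
    (B : Set (Fin n → ℝ)) : Prop :=
  ∀ r ∈ closedBall v₀ ρ, ∀ j : ℕ, j < k → a r + (j : ℝ) • r ∈ B

/-- `a` is `α`-Hölder with constant `H` on the closed cube with centre `v₀` and half side `ρ`. -/
def HolderOnCube {n : ℕ} (a : (Fin n → ℝ) → Fin n → ℝ) (v₀ : Fin n → ℝ) (ρ H α : ℝ) : Prop :=
  ∀ v ∈ closedBall v₀ ρ, ∀ w ∈ closedBall v₀ ρ, ‖a v - a w‖ ≤ H * ‖v - w‖ ^ α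

/-- For every `δ > 0` at least `c δ^(-m)` sets of diameter at most `δ` are needed to cover `B`. -/
def CoverBound {n : ℕ} (B : Set (Fin n → ℝ)) (c : ℝ) (m : ℕ) : Prop :=
  ∀ δ : ℝ, 0 < δ → ∀ (N : ℕ) (U : Fin N → Set (Fin n → ℝ)),
    (∀ i, ∀ x ∈ U i, ∀ y ∈ U i, dist x y ≤ δ) → B ⊆ ⋃ i, U i → c * (δ ^ m)⁻¹ ≤ N

theorem exists_real {x : ℝ≥0∞} (hx : x ≠ 0) : ∃ c : ℝ, 0 < c ∧ ENNReal.ofReal c ≤ x := by
  refine ⟨(min x 1).toReal, ENNReal.toReal_pos (by positivity) ?_, ?_⟩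
  · exact ((min_le_right _ _).trans_lt ENNReal.one_lt_top).ne
  · rw [ENNReal.ofReal_toReal ((min_le_right _ _).trans_lt ENNReal.one_lt_top).ne]
    exact min_le_left _ _

theorem cover_of {n m : ℕ} (ι : Fin m → Fin n) {B : Set (Fin n → ℝ)} {c0 : ℝ}
    (hc : ENNReal.ofReal c0 ≤ volume ((fun (x : Fin n → ℝ) (j : Fin m) => x (ι j)) '' B)) :
    CoverBound B (c0 / 2 ^ m) m := by
  intro δ hδ N U hU hB
  refine le_trans (le_of_eq ?_) (Pool.Agent.Q184.AKS.cover ι hc hδ N U hU hB)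
  rw [mul_pow, mul_inv]
  ring

theorem dim_of {n m : ℕ} (ι : Fin m → Fin n) {B : Set (Fin n → ℝ)}
    (h : volume ((fun (x : Fin n → ℝ) (j : Fin m) => x (ι j)) '' B) ≠ 0) :
    (m : ℝ≥0∞) ≤ dimH B := by
  have hlip : LipschitzWith 1 (fun (x : Fin n → ℝ) (j : Fin m) => x (ι j)) := by
    refine LipschitzWith.of_dist_le_mul fun x y => ?_
    rw [NNReal.coe_one, one_mul, dist_pi_le_iff dist_nonneg]
    intro j
    exact dist_le_pi_dist x y (ι j)
  refine le_trans ?_ (hlip.dimH_image_le B)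
  have h2 : (Measure.hausdorffMeasure ((Fintype.card (Fin m) : ℕ) : ℝ) : Measure (Fin m → ℝ)) =
    volume := hausdorffMeasure_pi_real
  rw [Fintype.card_fin] at h2
  have h3 := le_dimH_of_hausdorffMeasure_ne_zero
    (s := (fun (x : Fin n → ℝ) (j : Fin m) => x (ι j)) '' B) (d := (m : ℝ≥0)) (by
    simpa [h2] using h)
  simpa using h3

theorem inj {k : ℕ} : Function.Injective (fun i : Fin k => ((i : ℕ) : ℝ)) := fun i j hij =>
  Fin.ext (Nat.cast_injective hij)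

theorem result :
    -- 1. the critical Sobolev class: `n + 1` terms give positive measure
    (∀ (n : ℕ), 0 < n → ∀ (a : (Fin n → ℝ) → Fin n → ℝ) (v₀ : Fin n → ℝ) (ρ : ℝ), 0 < ρ →
      ContinuousOn a (closedBall v₀ ρ) → energy a v₀ ρ ≠ ⊤ →
      {t : ℝ | volume ((fun r => a r + t • r) '' closedBall v₀ ρ) = 0}.encard ≤ n ∧
      ∀ B : Set (Fin n → ℝ), Contains (n + 1) a v₀ ρ B →
        0 < volume B ∧ ∃ c : ℝ, 0 < c ∧ CoverBound B c n) ∧
    -- 2. Hölder functions: `m + 1` terms give dimension `m`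
    (∀ (n m : ℕ), 1 ≤ m → m ≤ n → ∀ (α H : ℝ), 1 - 1 / (m : ℝ) < α →
      ∀ (a : (Fin n → ℝ) → Fin n → ℝ) (v₀ : Fin n → ℝ) (ρ : ℝ), 0 < ρ → HolderOnCube a v₀ ρ H α →
      ∀ B : Set (Fin n → ℝ), Contains (m + 1) a v₀ ρ B →
        (m : ℝ≥0∞) ≤ dimH B ∧ ∃ c : ℝ, 0 < c ∧ CoverBound B c m) ∧
    -- 3. quantitative form
    (∀ n : ℕ, 2 ≤ n → ∀ α : ℝ, 1 - 1 / (n : ℝ) < α → α ≤ 1 → ∃ c : ℝ, 0 < c ∧
      ∀ (H : ℝ) (a : (Fin n → ℝ) → Fin n → ℝ) (v₀ : Fin n → ℝ) (ρ : ℝ), 0 ≤ H → 0 < ρ →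
      HolderOnCube a v₀ ρ H α → ∀ B : Set (Fin n → ℝ), Contains (n + 1) a v₀ ρ B →
        ENNReal.ofReal (c * ρ ^ n * (1 + H * ρ ^ (α - 1)) ^
          (-((n : ℝ) * ((n : ℝ) - 1)) / (α * n - n + 1))) ≤ volume B ∧
        CoverBound B (c * ρ ^ n * (1 + H * ρ ^ (α - 1)) ^
          (-((n : ℝ) * ((n : ℝ) - 1)) / (α * n - n + 1)) / 2 ^ n) n) ∧
    -- 4. `n` terms are not enough, even for linear functions
    (∀ n : ℕ, ∃ (a : (Fin n → ℝ) →ₗ[ℝ] (Fin n → ℝ)) (B : Set (Fin n → ℝ)),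
      Bornology.IsBounded B ∧ volume B = 0 ∧
        ∀ r : Fin n → ℝ, (∀ i, r i ∈ Icc (0 : ℝ) 1) → ∀ j : ℕ, j < n → a r + (j : ℝ) • r ∈ B) := by
  refine ⟨?_, ?_, ?_, Pool.Agent.Q184.AKS.sharp⟩
  · intro n hn a v₀ ρ hρ ha hE
    have hS := fun t ht => Pool.Agent.W769.Kak.slices_on (d := n) hn v₀ hρ ha hE t ht
    refine ⟨Pool.Agent.W769.Kak.encard_bad_le fun t ht => hS t ht, fun B hB => ?_⟩
    obtain ⟨i, hi⟩ := hS (fun i => ((i : ℕ) : ℝ)) inj
    have hvol : volume B ≠ 0 := fun h0 => hi (measure_mono_null (by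
      rintro _ ⟨v, hv, rfl⟩
      exact hB v hv i i.2) h0)
    refine ⟨pos_iff_ne_zero.2 hvol, ?_⟩
    obtain ⟨c, hc, hcv⟩ := exists_real hvol
    refine ⟨c / 2 ^ n, by positivity, cover_of id ?_⟩
    have : (fun (x : Fin n → ℝ) (j : Fin n) => x (id j)) '' B = B := by
      simp only [id]
      exact image_id' B
    rwa [this]
  · intro n m hm hmn α H hα a v₀ ρ hρ hH B hB
    have hα0 : 0 < α := by
      have h1 : (1 : ℝ) / m ≤ 1 := by
        rw [div_le_one (by exact_mod_cast hm)]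
        exact_mod_cast hm
      linarith
    obtain ⟨i, hi⟩ := Pool.Agent.Q184.AKS.hoelder hm hmn hα hα0 v₀ hρ hH
      (fun i => ((i : ℕ) : ℝ)) inj
    have hvol : volume ((fun (x : Fin n → ℝ) (j : Fin m) => x (Fin.castLE hmn j)) '' B) ≠ 0 :=
      fun h0 => hi (measure_mono_null (image_mono (by
        rintro _ ⟨v, hv, rfl⟩
        exact hB v hv i i.2)) h0)
    refine ⟨dim_of _ hvol, ?_⟩
    obtain ⟨c, hc, hcv⟩ := exists_real hvol
    exact ⟨c / 2 ^ m, by positivity, cover_of _ hcv⟩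
  · intro n hn α hα hα1
    have hn0 : (0 : ℝ) < n := by exact_mod_cast (show 0 < n by omega)
    have hγ : 0 < α * n - n + 1 := by
      have h1 : (1 - 1 / (n : ℝ)) * n < α * n := by gcongr
      have h2 : (1 - 1 / (n : ℝ)) * n = n - 1 := by field_simp
      linarith
    obtain ⟨c, hc, hmain⟩ := Pool.Agent.Q184.AKS.quant hn hα1 hγ
    refine ⟨c, hc, fun H a v₀ ρ hH hρ ha B hB => ?_⟩
    obtain ⟨j, hj, hv⟩ := hmain H v₀ ρ a hH hρ ha
    have hvB : volume ((fun v => a v + (j : ℝ) • v) '' closedBall v₀ ρ) ≤ volume B :=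
      measure_mono (by
        rintro _ ⟨v, hv, rfl⟩
        exact hB v hv j (by omega))
    refine ⟨hv.trans hvB, cover_of id ?_⟩
    have : (fun (x : Fin n → ℝ) (j : Fin n) => x (id j)) '' B = B := by
      simp only [id]
      exact image_id' B
    rw [this]
    exact hv.trans hvB

end Pool.Agent.Results.MP_4b405e_nt.SobolevSelections
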